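import Pool.Agent.R498.AU.A6
import Pool.Agent.Y627.PT.Eta

set_option autoImplicit false

/-!
# Parity patterns of eta-quotients against finite automata (MP_a3366f_nt)

Let `F_1, …, F_k` be eta-quotients, `F_j = ∏ f_d ^ (e_{j,d})`, `s_j = ∑ d e_{j,d}`, with coefficients
`a_j(n)`, let `m_1, …, m_k ≥ 1`, `M ≥ 1` and `Q ≥ 0`. Call `j` active if `24 ∤ s_j` and
`s_j (m_l / g) ≢ s_l (m_j / g) (mod 24)`, `g = gcd(m_j, m_l)`, for all `l ≠ j`. There is a constant
`C`, depending only on the `F_j`, the `m_j`, `M` and `Q`, such that the following holds for all sums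

  `W(n) = ∑_j ∑_{i < K} c_{j,i} a_j(m_j n + i) + ∑_z u_z(n + t_z)` modulo 2, `n ≡ ρ (mod M)`,

in which the `u_z` are arbitrarily many sequences, each computed by a finite automaton with at most
`Q` states reading the binary digits of its argument (in one of the two directions), `t_z < K`, and
some `c_{j,i} ≠ 0` with `j` active belongs to a class `m_j ρ + i` modulo `m_j M` where `a_j` is not
identically even: `W` takes both values on the `n ≡ ρ (mod M)` in every interval `[A, C (A + K)]`.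

Example: `F = 1 / f_1 ^ t`, `24 ∤ t` (in particular all odd `t`): for every `Q` there is a `C` such
that every automaton with at most `Q` states (and every sum of the outputs of such automata) predicts
the parity of the number `p_t(n)` of `t`-multipartitions wrongly for some `n`, and correctly for some
`n`, in every interval `[A, C (A + 1)]`. The eta-quotients that are not active are arbitrary; for
instance `f_8 ^ 3`, whose coefficient at `n` is odd exactly if `n + 1` is an odd square.

Method. Those of the starting file `EtaQuotients` (transcendence measure of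
`D = q ∏ (1 - q ^ n) ^ 24` modulo 2; all sections of eta-quotients are `q ^ (-s / 24)` times functions
algebraic over `F_2(D)`), together with: a relation between these functions over `F_2(q)` whose right
hand side is algebraic over `F_2(q)` splits according to the exponents modulo 1 up to constants
algebraic over `F_2` (specialization of `q ^ (1 / 24)` and interpolation), and sequences with finite
2-kernel are algebraic over `F_2(q)` (Christol), as are their sections modulo `M`.
-/

namespace Pool.Agent.Results.MP_a3366f_nt.AutomaticSequences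

open PowerSeries

/-- `f_d = ∏_{i ≥ 1} (1 - q ^ (d i))`: Mathlib's series `pentagonalSeries ℤ = ∏_{i ≥ 1} (1 - q ^ i)`
in the variable `q ^ d` -/
noncomputable def f (d : ℕ) : ℤ⟦X⟧ :=
  PowerSeries.mk fun n => if d ∣ n then coeff (n / d) (pentagonalSeries ℤ) else 0

/-- `F = ∏_{d ∈ D} f_d ^ (u_d - v_d)`, an eta-quotient, and `s = ∑_{d ∈ D} d (u_d - v_d)` -/
def IsEtaQuotient (F : ℤ⟦X⟧) (s : ℤ) : Prop :=
  ∃ (D : Finset ℕ) (u v : ℕ → ℕ), 0 ∉ D ∧ F * ∏ d ∈ D, f d ^ v d = ∏ d ∈ D, f d ^ u d ∧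
    s = ∑ d ∈ D, (d : ℤ) * ((u d : ℤ) - v d)

/-- `u(n)` is computed by a finite automaton with at most `Q` states (transition function `δ`, initial
state `q`, output function `h`) which reads the binary digits of `n` (`Nat.bits n`, least significant
digit first, empty for `n = 0`), starting from the least significant one or starting from the most
significant one -/
def Automatic (Q : ℕ) (u : ℕ → ZMod 2) : Prop :=
  ∃ (s : ℕ) (δ : Fin s → Bool → Fin s) (q : Fin s) (h : Fin s → ZMod 2), s ≤ Q ∧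
    ((∀ n, u n = h (n.bits.foldl δ q)) ∨ (∀ n, u n = h (n.bits.reverse.foldl δ q)))

theorem result (k : ℕ) (F : Fin k → ℤ⟦X⟧) (s : Fin k → ℤ) (hF : ∀ j, IsEtaQuotient (F j) (s j))
    (m : Fin k → ℕ) (hm : ∀ j, 0 < m j) (M : ℕ) (hM : 0 < M) (Q : ℕ) :
    ∃ C : ℕ, ∀ (K : ℕ) (c : Fin k → ℕ → ZMod 2) (ρ : ℕ),
      (∃ j, ¬ (24 : ℤ) ∣ s j ∧
        (∀ l, j ≠ l → ¬ (24 : ℤ) ∣ s j * (m l / Nat.gcd (m j) (m l) : ℕ) -
          s l * (m j / Nat.gcd (m j) (m l) : ℕ)) ∧
        ∃ i < K, c j i ≠ 0 ∧ ∃ N, N ≡ m j * ρ + i [MOD m j * M] ∧ Odd (coeff N (F j))) →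
      ∀ (L : ℕ) (u : Fin L → ℕ → ZMod 2) (t : Fin L → ℕ), (∀ z, Automatic Q (u z)) →
        (∀ z, t z < K) →
      ∀ (κ : ZMod 2) (A : ℕ), ∃ n, A ≤ n ∧ n ≤ C * (A + K) ∧ n ≡ ρ [MOD M] ∧
        ∑ j, ∑ i ∈ Finset.range K, c j i * ((coeff (m j * n + i) (F j) : ℤ) : ZMod 2) +
          ∑ z, u z (n + t z) = κ := by
  have hS : ∀ j, Pool.Agent.Y627.PT.Sec ((F j).map (Int.castRingHom (ZMod 2))) (-(s j)) := by
    intro j
    obtain ⟨D, u, v, hD, hrel, hs⟩ := hF j
    rw [hs]
    exact Pool.Agent.Y627.PT.sec_eta D u v hD (F j) hrel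
  obtain ⟨C, hC⟩ := Pool.Agent.R498.AU.main_aut
    (fun j => (F j).map (Int.castRingHom (ZMod 2))) (fun j => -(s j)) hS m hm M hM Q
  refine ⟨C, fun K c ρ hc L u t hu ht κ A => ?_⟩
  obtain ⟨n, h1, h2, h3, h4⟩ := hC K c ρ (by
    obtain ⟨j, g1, g2, i, hi, hci, N, hN, hodd⟩ := hc
    refine ⟨j, fun h => g1 ((dvd_neg).1 h), fun l hjl h => g2 l hjl ?_, i, hi, hci,
      Pool.Agent.Y627.PT.proj_ne_of_odd hN hodd⟩
    have : s j * (m l / Nat.gcd (m j) (m l) : ℕ) - s l * (m j / Nat.gcd (m j) (m l) : ℕ) =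
      -(-(s j) * (m l / Nat.gcd (m j) (m l) : ℕ) - -(s l) * (m j / Nat.gcd (m j) (m l) : ℕ)) := by
        ring
    rw [this]
    exact (dvd_neg).2 h) L u t hu ht κ A
  refine ⟨n, h1, h2, h3, ?_⟩
  rw [← h4]
  congr 1

end Pool.Agent.Results.MP_a3366f_nt.AutomaticSequences
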