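import Pool.Agent.R836.PP.EvenC
import Pool.Agent.H413R3.Part.Pt

set_option autoImplicit false

/-!
# Counting linear parity patterns of the multipartition functions (MP_a3366f_nt)

Let `t` be odd and let `p_t n` be the number of `t`-multipartitions of `n`. For every `L`, every nonzero
pattern `c : Fin (L + 1) → ZMod 2` and every residue class modulo a power of 2, the number of the
`n ≤ x` in that class with `∑ c i * p_t (n + i)` even is at least `C √x` for every `C` and all large
`x`, and the number of those with an odd sum is at least `√x (log log x) ^ K / log x` for every `K`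
and all large `x`.

Method. Modulo 2 let `f = ∏ (1 - X ^ i)`, `F = 1 / f`, and let `D` be the series with the exponents
`(2 k + 1) ^ 2`, the reduction of `Δ`. For large `e` one of `(2 ^ e - t) / 3`, `2 ^ e - t / 3` (that is
`(3 * 2 ^ e - t) / 3`) is a natural number `m`, it is odd, and `F ^ t * f ^ (2 ^ e * ε) = f ^ (3 m)`,
`ε = 1` or `3`. The coefficients of `f ^ (3 m)` are those of `D ^ m` at the exponents `8 n + m`, and
`f ^ (2 ^ e * ε)` is supported on the `2 ^ e * g`, `g` pentagonal or triangular. By the theory of
Nicolas and Serre (in the starting files `Pool.Agent.H307R2.OP`) the Hecke operators at the odd primes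
are nilpotent on the span of the `D ^ m` modulo 2, and there is a product of prescribed numbers of
Hecke operators at primes `3` and `5` modulo 8 which takes `D ^ m` to `D`. This gives, in every class
that the pattern needs (by the Chinese remainder theorem all terms of the pattern but one are made
zero: they are divided exactly once by more distinct primes than the index of nilpotency), many
exponents with coefficient 1: products of a large prescribed number of distinct primes. Their number
up to `x` exceeds `x (log log x) ^ K / log x`. Each of these `n` is a sum of a value 1 of the pattern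
of `F ^ t` and of an exponent of `f ^ (2 ^ e * ε)`, of which there are `O(√x)`. For the value 0: the
coefficients of `D ^ m` have density 0, the number of exponents `≤ n` of `f ^ (2 ^ e * ε)` is odd on a
positive proportion, independent of `e`, and the number of the exponents is at most
`C √(x / 2 ^ e)`.
-/

namespace Pool.Agent.Results.MP_a3366f_nt.PatternCounts

open Pool.Agent.R836.PP PowerSeries

/-- the number of `t`-multipartitions of `n`: the coefficient of `q ^ n` in `∏ 1 / (1 - q ^ i) ^ t` -/
def multipartitions (t n : ℕ) : ℕ :=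
  ∑ x ∈ Finset.Nat.antidiagonalTuple t n, ∏ i, Fintype.card (Nat.Partition (x i))

private theorem vals_eq (t b : ℕ) {L : ℕ} (c : Fin (L + 1) → ZMod 2) (κ : ZMod 2) (ρ x : ℕ) :
    (vals c ((PowerSeries.mk fun n =>
      (Fintype.card (Nat.Partition n) : ZMod 2)) ^ t) κ (2 ^ b) ρ x) =
      (Finset.range (x + 1)).filter fun n => n % 2 ^ b = ρ % 2 ^ b ∧
        ∑ i : Fin (L + 1), c i * (multipartitions t (n + i) : ZMod 2) = κ := by
  unfold vals pat
  ext n
  simp only [Finset.mem_filter, Pool.Agent.H413R3.Part.coeff_pow_eq]
  rfl

theorem result (t : ℕ) (ht : Odd t) (b L : ℕ) (c : Fin (L + 1) → ZMod 2) (hc : c ≠ 0) (ρ : ℕ) :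
    (∀ C : ℝ, ∃ x0 : ℕ, ∀ x : ℕ, x0 ≤ x →
      C * √x ≤ (((Finset.range (x + 1)).filter fun n => n % 2 ^ b = ρ % 2 ^ b ∧
        ∑ i : Fin (L + 1), c i * (multipartitions t (n + i) : ZMod 2) = 0).card : ℝ)) ∧
    (∀ K : ℕ, ∃ x0 : ℕ, ∀ x : ℕ, x0 ≤ x →
      √x * Real.log (Real.log x) ^ K / Real.log x ≤
        (((Finset.range (x + 1)).filter fun n => n % 2 ^ b = ρ % 2 ^ b ∧
          ∑ i : Fin (L + 1), c i * (multipartitions t (n + i) : ZMod 2) = 1).card : ℝ)) := by
  have ht2 : t % 2 = 1 := Nat.odd_iff.1 ht
  refine ⟨fun C => ?_, fun K => ?_⟩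
  · obtain ⟨X0, hX0⟩ := even_all t b ht2 C c ρ
    refine ⟨X0, fun x hx => ?_⟩
    have h := hX0 x hx
    rw [vals_eq] at h
    exact h
  · obtain ⟨X0, hX0⟩ := odd_all t b ht2 K c hc ρ
    refine ⟨X0, fun x hx => ?_⟩
    have h := hX0 x hx
    rw [vals_eq] at h
    exact h

end Pool.Agent.Results.MP_a3366f_nt.PatternCounts
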