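import Pool.Agent.R836.RD.Main
import Pool.Agent.H413R3.Part.Pt

set_option autoImplicit false

/-!
# Parity patterns of the multipartition functions on all progressions (MP_a3366f_nt)

Let `t` be odd, `M ≥ 1`, and let `p_t n` be the number of `t`-multipartitions of `n`. There is a
constant `C` such that every linear combination `∑_{i < K} c_i p_t (n + i)` modulo 2, `c ≠ 0`,
restricted to any class `n ≡ ρ (mod M)`, takes both values in every interval `[A, C (A + K)]`. In
particular (`K = 1`) both parities of `p_t` occur on every progression, infinitely often.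

The starting files have this under the assumption that `M` is a power of 2 or that one value of `p_t`
in the class is odd (`ShortIntervalsProgressions`, `EtaQuotients`). The new part is that there is
always such a value, that is, `p_t` is not identically even on any progression (Subbarao's
question for `p_t`; for `t = 1` this is Radu's theorem, which is proved here in another way).

Method. `p_t` is `1 / e(p) ^ t` in `p ^ 24`, with `e = ∑ X ^ (m ^ 2)`, `(m, 6) = 1`, `e ^ 3 = D(X ^ 3)`. The
automorphism over `F_2(D(w ^ (3 M)))` that maps `D(w ^ 3)` to `D(w ^ (3 M ^ 2))` with all its parts modulo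
`2 ^ κ` (see `Results/MP_24de68_nt/NoEvenProgression`) carries the linear relation between the values
at `ζ ^ s w`, which expresses that a section vanishes, to a relation with a single term of the
smallest order.
-/

namespace Pool.Agent.Results.MP_a3366f_nt.PatternsOnAllProgressions

open PowerSeries Pool.Agent.R836.RD Pool.Agent.TH693.PP

/-- the number of `t`-multipartitions of `n`: the coefficient of `q ^ n` in `∏ 1 / (1 - q ^ i) ^ t` -/
def multipartitions (t n : ℕ) : ℕ :=
  ∑ x ∈ Finset.Nat.antidiagonalTuple t n, ∏ i, Fintype.card (Nat.Partition (x i))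

private theorem coeff_P_pow (t n : ℕ) : coeff n (P ^ t) = (multipartitions t n : ZMod 2) := by
  have h := Pool.Agent.H413R3.Part.coeff_pow_eq (t := t) (n := n)
  exact h

theorem result (t : ℕ) (ht : Odd t) (M : ℕ) (hM : 0 < M) :
    ∃ C : ℕ, ∀ (K : ℕ) (c : ℕ → ZMod 2) (ρ : ℕ), (∃ i < K, c i ≠ 0) →
      ∀ (κ : ZMod 2) (A : ℕ), ∃ n, A ≤ n ∧ n ≤ C * (A + K) ∧ n ≡ ρ [MOD M] ∧
        ∑ i ∈ Finset.range K, c i * (multipartitions t (n + i) : ZMod 2) = κ := by
  have hsec : Pool.Agent.Y627.PT.Sec (P ^ t) (t : ℤ) := by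
    have h := Pool.Agent.Y627.PT.sec_pow Pool.Agent.Y627.PT.sec_P t
    rwa [mul_one] at h
  obtain ⟨C, hC⟩ := pat1 (P ^ t) t hsec (by
    intro h
    obtain ⟨k, hk⟩ := ht
    omega) M hM
  refine ⟨C, fun K c ρ h κ A => ?_⟩
  obtain ⟨i, hi, hci⟩ := h
  obtain ⟨n, -, h1⟩ := full_P t ht M (ρ + i) hM 0
  obtain ⟨n', h1', h2, h3, h4⟩ := hC K c ρ ⟨i, hi, hci, M * n + (ρ + i),
    (Nat.modEq_iff_dvd' (Nat.le_add_left _ _)).2 (by
      rw [Nat.add_sub_cancel]
      exact Dvd.intro _ rfl) |>.symm, by rw [h1]; exact one_ne_zero⟩ κ A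
  refine ⟨n', h1', h2, h3, ?_⟩
  rw [← h4]
  refine Finset.sum_congr rfl fun i _ => ?_
  rw [coeff_P_pow]

end Pool.Agent.Results.MP_a3366f_nt.PatternsOnAllProgressions
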