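import Pool.Agent.R978.PD.E

set_option autoImplicit false

/-!
# Parity of multipartitions with randomly deleted parts (MP_a3366f_nt)

Let `R` be a random set of positive integers, the events `a ∈ R` being independent and
`√(log a / a) ≤ P (a ∈ R) ≤ 1 - √(log a / a)` for all large `a` (so `R` may contain as few as about
`2 √(N log N)` of the integers up to `N` in the mean). Let `t` be odd and let `P_R(q)` be the
generating series of the partitions with no part in `R`, so that the coefficients of `P_R(q) ^ t`
count the `t`-multipartitions with no part in `R`. For every integer sequence `B` with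
`B 0` odd and every strictly increasing sequence `s` of natural numbers, almost surely every word `w` of
length `L` occurs in the parities of the coefficients of `B(q) P_R(q) ^ t` at the places
`s k, …, s k + L - 1` for a proportion `2 ^ (-L)` of the `k`.

Method. Modulo 2 and modulo `q ^ (2 h + 2)`, deleting the parts `a > h` of `R` multiplies
`B P ^ t` by `(1 + E) ^ t = 1 + E`, `E` the sum of the `q ^ a`, `a > h` in `R`, as `E ^ 2` vanishes
modulo `q ^ (2 h + 2)` and `t` is odd. See `Pool.Agent.Results.MP_ebc808_nt.RandomlyDeletedParts` for the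
rest of the argument.
-/

namespace Pool.Agent.Results.MP_a3366f_nt.RandomlyDeletedParts

open MeasureTheory ProbabilityTheory Filter Topology

/-- the number of partitions of `n` none of whose parts is in `R` -/
noncomputable def partitionsAvoiding (R : Set ℕ) (n : ℕ) : ℕ :=
  Nat.card {p : Nat.Partition n // ∀ a ∈ p.parts, a ∉ R}

/-- the number of `t`-multipartitions of `n` (`t`-tuples of partitions with total sum `n`) none of whose
parts is in `R` -/
noncomputable def multipartitionsAvoiding (R : Set ℕ) (t n : ℕ) : ℕ :=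
  ∑ x ∈ Finset.Nat.antidiagonalTuple t n, ∏ i, partitionsAvoiding R (x i)

theorem result {Ω : Type} [MeasurableSpace Ω] {P : Measure Ω} [IsProbabilityMeasure P]
    (R : Ω → Set ℕ) (hm : ∀ a : ℕ, MeasurableSet {ω | a ∈ R ω})
    (hi : iIndepSet (fun a : ℕ => {ω | a ∈ R ω}) P)
    (hR : ∀ᶠ a : ℕ in atTop, √(Real.log a / a) ≤ P.real {ω | a ∈ R ω} ∧
      P.real {ω | a ∈ R ω} ≤ 1 - √(Real.log a / a))
    (t : ℕ) (ht : Odd t) (s : ℕ → ℕ) (hs : StrictMono s) :
    (∀ᵐ ω ∂P, ∀ (L : ℕ) (w : Fin L → ZMod 2),
      Tendsto (fun x : ℕ => (((Finset.range x).filter fun k => ∀ i : Fin L,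
        (multipartitionsAvoiding (R ω) t (s k + i) : ZMod 2) = w i).card : ℝ) / x)
        atTop (𝓝 ((1 / 2) ^ L))) ∧
    ∀ B : ℕ → ℤ, Odd (B 0) → ∀ᵐ ω ∂P, ∀ (L : ℕ) (w : Fin L → ZMod 2),
      Tendsto (fun x : ℕ => (((Finset.range x).filter fun k => ∀ i : Fin L,
        ((∑ ab ∈ Finset.HasAntidiagonal.antidiagonal (s k + (i : ℕ)),
          B ab.1 * (multipartitionsAvoiding (R ω) t ab.2 : ℤ) : ℤ) : ZMod 2) = w i).card : ℝ) / x)
        atTop (𝓝 ((1 / 2) ^ L)) := by
  constructor
  · have h1 := Pool.Agent.R978.PD.main R hm hi hR (B := 1)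
      (by rw [PowerSeries.coeff_zero_eq_constantCoeff_apply, map_one]) ht hs
    filter_upwards [h1] with ω hω L w
    have h2 := hω L (fun i => if h : i < L then w ⟨i, h⟩ else 0)
    have key : ∀ n, Pool.Agent.R978.PD.cB 1 t (Pool.Agent.R978.PD.ind (R ω)) n =
        (multipartitionsAvoiding (R ω) t n : ZMod 2) := by
      intro n
      unfold Pool.Agent.R978.PD.cB
      rw [one_mul, Pool.Agent.R978.PD.coeff_ser_pow]
      rfl
    refine h2.congr fun x => ?_
    congr 2
    refine congrArg Finset.card (Finset.filter_congr fun k _ => ?_)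
    constructor
    · intro H i
      have := H i i.2
      rw [key, dif_pos i.2] at this
      exact this
    · intro H i hi
      rw [key, dif_pos hi]
      exact H ⟨i, hi⟩
  · intro B hB
    have h1 := Pool.Agent.R978.PD.main R hm hi hR
      (B := PowerSeries.mk fun m => (B m : ZMod 2))
      (by
        rw [PowerSeries.coeff_mk]
        obtain ⟨m, hm⟩ := hB
        rw [hm]
        push_cast
        rw [show (2 : ZMod 2) = 0 by decide, zero_mul, zero_add]) ht hs
    filter_upwards [h1] with ω hω L w
    have h2 := hω L (fun i => if h : i < L then w ⟨i, h⟩ else 0)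
    have key : ∀ n, Pool.Agent.R978.PD.cB (PowerSeries.mk fun m => (B m : ZMod 2)) t
        (Pool.Agent.R978.PD.ind (R ω)) n =
        ((∑ ab ∈ Finset.HasAntidiagonal.antidiagonal n,
          B ab.1 * (multipartitionsAvoiding (R ω) t ab.2 : ℤ) : ℤ) : ZMod 2) := fun n =>
      Pool.Agent.R978.PD.cB_gen (R ω) B t n
    refine h2.congr fun x => ?_
    congr 2
    refine congrArg Finset.card (Finset.filter_congr fun k _ => ?_)
    constructor
    · intro H i
      have := H i i.2
      rw [key, dif_pos i.2] at this
      exact this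
    · intro H i hi
      rw [key, dif_pos hi]
      exact H ⟨i, hi⟩

end Pool.Agent.Results.MP_a3366f_nt.RandomlyDeletedParts
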